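import Mathlib

/-!
# Union-closed families generated by circuits of a matroid

For a class `𝓓` of circuits of a matroid `M` on a finite type and a set `Z` consider the sets `S`
disjoint from `Z` such that every element of `S` lies in a member of `𝓓` contained in `S ∪ Z`.
If `𝓓` contains all circuits meeting `Z`, and if `𝓓` is closed in the sense that every element of a
circuit which meets a member `C₀` of `𝓓` lies in a member of `𝓓` in the union, then every element
lies in at least half of these sets, also if a monotone side condition is added.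
-/

set_option autoImplicit false

namespace Pool.Agent.Q295.UC

open Set

set_option linter.unusedSectionVars false

variable {α : Type*} [Fintype α] [DecidableEq α]

/-- Transitivity of the relation of lying in a common circuit, inside the union of the circuits. -/
theorem trans_aux (M : Matroid α) (n : ℕ) : ∀ C₁ C₂ : Set α, M.IsCircuit C₁ → M.IsCircuit C₂ →
    (C₁ ∩ C₂).Nonempty → (C₁ ∪ C₂).ncard ≤ n → ∀ e ∈ C₁, ∀ f ∈ C₂,
      ∃ C, M.IsCircuit C ∧ C ⊆ C₁ ∪ C₂ ∧ e ∈ C ∧ f ∈ C := by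
  induction n using Nat.strong_induction_on with
  | _ n ih =>
    intro C₁ C₂ h1 h2 hne hn e he f hf
    by_cases hf1 : f ∈ C₁
    · exact ⟨C₁, h1, subset_union_left, he, hf1⟩
    by_cases he2 : e ∈ C₂
    · exact ⟨C₂, h2, subset_union_right, he2, hf⟩
    obtain ⟨y, hy1, hy2⟩ := hne
    obtain ⟨C₃, h3s, h3, he3⟩ := h1.strong_elimination h2 hy1 hy2 he he2
    obtain ⟨C₄, h4s, h4, hf4⟩ := h2.strong_elimination h1 hy2 hy1 hf hf1
    have h3s' : C₃ ⊆ C₁ ∪ C₂ := fun z hz => (h3s hz).1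
    have h4s' : C₄ ⊆ C₁ ∪ C₂ := fun z hz => by
      have := (h4s hz).1
      rwa [union_comm] at this
    have hy3 : y ∉ C₃ := fun h => (h3s h).2 rfl
    have hy4 : y ∉ C₄ := fun h => (h4s h).2 rfl
    have hfin : (C₁ ∪ C₂).Finite := toFinite _
    have a3 : ∃ z ∈ C₃, z ∈ C₂ ∧ z ∉ C₁ := by
      by_contra hcon
      push Not at hcon
      have : C₃ ⊆ C₁ := fun z hz => by
        rcases h3s' hz with h | h
        · exact h
        · by_contra hz1
          exact hz1 (hcon z hz h)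
      have := h3.eq_of_subset_isCircuit h1 this
      exact hy3 (this ▸ hy1)
    have a4 : ∃ z ∈ C₄, z ∈ C₁ ∧ z ∉ C₂ := by
      by_contra hcon
      push Not at hcon
      have : C₄ ⊆ C₂ := fun z hz => by
        rcases h4s' hz with h | h
        · by_contra hz1
          exact hz1 (hcon z hz h)
        · exact h
      have := h4.eq_of_subset_isCircuit h2 this
      exact hy4 (this ▸ hy2)
    obtain ⟨z3, hz3, hz32, hz31⟩ := a3
    obtain ⟨z4, hz4, hz41, hz42⟩ := a4
    have key : ∀ X : Set α, X ⊆ C₁ ∪ C₂ → (∃ w ∈ C₁ ∪ C₂, w ∉ X) → X.ncard < n := by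
      rintro X hX ⟨w, hw, hwX⟩
      refine lt_of_lt_of_le (ncard_lt_ncard ⟨hX, fun h => hwX (h hw)⟩ hfin) hn
    -- either the union `C₃ ∪ C₂` is smaller or `C₁ \ C₂ ⊆ C₃`
    by_cases b3 : ∃ w ∈ C₁ ∪ C₂, w ∉ C₃ ∪ C₂
    · have hs : C₃ ∪ C₂ ⊆ C₁ ∪ C₂ := union_subset h3s' subset_union_right
      obtain ⟨C, hC, hCs, heC, hfC⟩ := ih _ (key _ hs b3) C₃ C₂ h3 h2 ⟨z3, hz3, hz32⟩ le_rfl e he3 f hf
      exact ⟨C, hC, hCs.trans hs, heC, hfC⟩
    by_cases b4 : ∃ w ∈ C₁ ∪ C₂, w ∉ C₁ ∪ C₄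
    · have hs : C₁ ∪ C₄ ⊆ C₁ ∪ C₂ := union_subset subset_union_left h4s'
      obtain ⟨C, hC, hCs, heC, hfC⟩ := ih _ (key _ hs b4) C₁ C₄ h1 h4 ⟨z4, hz41, hz4⟩ le_rfl e he f hf4
      exact ⟨C, hC, hCs.trans hs, heC, hfC⟩
    push Not at b3 b4
    have hz34 : z3 ∈ C₄ := by
      rcases b4 z3 (Or.inr hz32) with h | h
      · exact absurd h hz31
      · exact h
    have hs : C₃ ∪ C₄ ⊆ C₁ ∪ C₂ := union_subset h3s' h4s'
    obtain ⟨C, hC, hCs, heC, hfC⟩ := ih _ (key _ hs ⟨y, Or.inl hy1, by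
      rintro (h | h)
      · exact hy3 h
      · exact hy4 h⟩) C₃ C₄ h3 h4 ⟨z3, hz3, hz34⟩ le_rfl e he3 f hf4
    exact ⟨C, hC, hCs.trans hs, heC, hfC⟩

theorem trans (M : Matroid α) {C₁ C₂ : Set α} (h1 : M.IsCircuit C₁) (h2 : M.IsCircuit C₂)
    (hne : (C₁ ∩ C₂).Nonempty) {e f : α} (he : e ∈ C₁) (hf : f ∈ C₂) :
    ∃ C, M.IsCircuit C ∧ C ⊆ C₁ ∪ C₂ ∧ e ∈ C ∧ f ∈ C :=
  trans_aux M _ C₁ C₂ h1 h2 hne le_rfl e he f hf

/-- Every element of a finset `S` disjoint from `Z` lies in a member of `𝓓` contained in `S ∪ Z`. -/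
def Gen (𝓓 : Set (Set α)) (Z : Set α) (S : Finset α) : Prop :=
  Disjoint (S : Set α) Z ∧ ∀ s ∈ S, ∃ C ∈ 𝓓, s ∈ C ∧ C ⊆ (S : Set α) ∪ Z

theorem gen_union {𝓓 : Set (Set α)} {Z : Set α} {S T : Finset α} (hS : Gen 𝓓 Z S)
    (hT : Gen 𝓓 Z T) : Gen 𝓓 Z (S ∪ T) := by
  refine ⟨?_, ?_⟩
  · rw [Finset.coe_union, disjoint_union_left]
    exact ⟨hS.1, hT.1⟩
  · intro s hs
    rcases Finset.mem_union.1 hs with h | h
    · obtain ⟨C, hC, hsC, hCS⟩ := hS.2 s h
      refine ⟨C, hC, hsC, hCS.trans (union_subset_union_left _ ?_)⟩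
      exact_mod_cast Finset.subset_union_left
    · obtain ⟨C, hC, hsC, hCS⟩ := hT.2 s h
      refine ⟨C, hC, hsC, hCS.trans (union_subset_union_left _ ?_)⟩
      exact_mod_cast Finset.subset_union_right

/-- The members of the family: generated sets with the side condition `Q`. -/
noncomputable def fam (𝓓 : Set (Set α)) (Z : Set α) (Q : Finset α → Prop) : Finset (Finset α) := by
  classical exact Finset.univ.filter fun S => Gen 𝓓 Z S ∧ Q S

theorem mem_fam {𝓓 : Set (Set α)} {Z : Set α} {Q : Finset α → Prop} {S : Finset α} :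
    S ∈ fam 𝓓 Z Q ↔ Gen 𝓓 Z S ∧ Q S := by
  classical
  simp [fam]

/-- The extension step. -/
theorem step (M : Matroid α) {𝓓 : Set (Set α)} {Z : Set α}
    (hZ : ∀ C, M.IsCircuit C → (C ∩ Z).Nonempty → C ∈ 𝓓) (hD : ∀ C ∈ 𝓓, M.IsCircuit C)
    (hB : ∀ C C₀, M.IsCircuit C → C₀ ∈ 𝓓 → (C ∩ C₀).Nonempty → ∀ d ∈ C, ∃ C' ∈ 𝓓, d ∈ C' ∧
      C' ⊆ C ∪ C₀) {x : α} (hxZ : x ∉ Z) (hx : ∃ C ∈ 𝓓, x ∈ C) {S : Finset α} (hS : Gen 𝓓 Z S)
    (hxS : x ∉ S) : ∃ S' : Finset α, Gen 𝓓 Z S' ∧ S ⊆ S' ∧ x ∈ S' ∧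
      ∀ T : Finset α, Gen 𝓓 Z T → T ⊆ S'.erase x → T ⊆ S := by
  classical
  obtain ⟨C, hC, hxC⟩ := hx
  set X : Set α := (S : Set α) ∪ Z with hX
  have hxX : x ∉ X := by
    rintro (h | h)
    · exact hxS (by exact_mod_cast h)
    · exact hxZ h
  -- a circuit through `x` with the smallest trace outside of `X`
  obtain ⟨C₁, ⟨hC1, hxC1, hC1C⟩, hmin⟩ := exists_min_image
    {B : Set α | M.IsCircuit B ∧ x ∈ B ∧ B \ X ⊆ C \ X} (fun B => (B \ X).ncard) (toFinite _)
    ⟨C, hD C hC, hxC, Subset.rfl⟩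
  have claim : ∀ C₂, M.IsCircuit C₂ → C₂ \ X ⊆ C₁ \ X → (C₂ \ X).Nonempty → x ∈ C₂ := by
    intro C₂ h2 hsub hne
    by_contra hx2
    obtain ⟨y, hy2, hyX⟩ := hne
    have hy1 : y ∈ C₁ := (hsub ⟨hy2, hyX⟩).1
    obtain ⟨C₃, h3s, h3, hx3⟩ := hC1.strong_elimination h2 hy1 hy2 hxC1 hx2
    have hsub3 : C₃ \ X ⊆ (C₁ \ X) \ {y} := by
      rintro z ⟨hz, hzX⟩
      refine ⟨?_, (h3s hz).2⟩
      rcases (h3s hz).1 with h | h
      · exact ⟨h, hzX⟩
      · exact hsub ⟨h, hzX⟩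
    have h4 := hmin C₃ ⟨h3, hx3, fun z hz => hC1C (hsub3 hz).1⟩
    have h5 : (C₃ \ X).ncard < (C₁ \ X).ncard := by
      refine ncard_lt_ncard ⟨fun z hz => (hsub3 hz).1, fun h => ?_⟩ (toFinite _)
      exact (hsub3 (h ⟨hy1, hyX⟩)).2 rfl
    omega
  set D : Finset α := (C₁ \ X).toFinset with hDdef
  have hDmem : ∀ z, z ∈ D ↔ z ∈ C₁ ∧ z ∉ X := fun z => by simp [hDdef]
  have hcoe : ((S ∪ D : Finset α) : Set α) ∪ Z = X ∪ C₁ := by
    ext z
    simp only [Finset.coe_union, mem_union, Finset.mem_coe, hDmem, hX]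
    tauto
  refine ⟨S ∪ D, ⟨?_, ?_⟩, Finset.subset_union_left, ?_, ?_⟩
  · rw [Finset.coe_union, disjoint_union_left]
    refine ⟨hS.1, ?_⟩
    rw [disjoint_left]
    intro z hz hzZ
    exact ((hDmem z).1 (by exact_mod_cast hz)).2 (Or.inr hzZ)
  · intro s hs
    rw [hcoe]
    rcases Finset.mem_union.1 hs with h | h
    · obtain ⟨B, hB1, hB2, hB3⟩ := hS.2 s h
      exact ⟨B, hB1, hB2, hB3.trans subset_union_left⟩
    · have hs1 := (hDmem s).1 h
      by_cases hint : (C₁ ∩ X).Nonempty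
      · obtain ⟨y, hy1, hyX⟩ := hint
        rcases hyX with hyS | hyZ
        · obtain ⟨B, hB1, hB2, hB3⟩ := hS.2 y (by exact_mod_cast hyS)
          obtain ⟨B', hB'1, hB'2, hB'3⟩ := hB C₁ B hC1 hB1 ⟨y, hy1, hB2⟩ s hs1.1
          exact ⟨B', hB'1, hB'2, hB'3.trans (union_subset subset_union_right
            (hB3.trans subset_union_left))⟩
        · exact ⟨C₁, hZ C₁ hC1 ⟨y, hy1, hyZ⟩, hs1.1, subset_union_right⟩
      · have hsub : C₁ ⊆ C := by
          intro z hz
          have hzX : z ∉ X := fun h => hint ⟨z, hz, h⟩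
          exact (hC1C ⟨hz, hzX⟩).1
        have heq := hC1.eq_of_subset_isCircuit (hD C hC) hsub
        exact ⟨C₁, heq ▸ hC, hs1.1, subset_union_right⟩
  · exact Finset.mem_union_right _ ((hDmem x).2 ⟨hxC1, hxX⟩)
  · intro T hT hTS t htT
    by_contra htS
    obtain ⟨B, hB1, hB2, hB3⟩ := hT.2 t htT
    have hsub : B \ X ⊆ C₁ \ X := by
      rintro z ⟨hzB, hzX⟩
      rcases hB3 hzB with h | h
      · have hz := hTS (by exact_mod_cast h : z ∈ T)
        rcases Finset.mem_union.1 (Finset.mem_of_mem_erase hz) with h' | h'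
        · exact absurd (Or.inl (by exact_mod_cast h')) hzX
        · exact (hDmem z).1 h'
      · exact absurd (Or.inr h) hzX
    have htX : t ∉ X := by
      rintro (h | h)
      · exact htS (by exact_mod_cast h)
      · exact disjoint_left.1 hT.1 (by exact_mod_cast htT) h
    have hxB := claim B (hD B hB1) hsub ⟨t, hB2, htX⟩
    rcases hB3 hxB with h | h
    · have hz := hTS (by exact_mod_cast h : x ∈ T)
      exact (Finset.notMem_erase x _) hz
    · exact hxZ h

/-- Every element lies in at least half of the members. -/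
theorem main (M : Matroid α) {𝓓 : Set (Set α)} {Z : Set α}
    (hZ : ∀ C, M.IsCircuit C → (C ∩ Z).Nonempty → C ∈ 𝓓) (hD : ∀ C ∈ 𝓓, M.IsCircuit C)
    (hB : ∀ C C₀, M.IsCircuit C → C₀ ∈ 𝓓 → (C ∩ C₀).Nonempty → ∀ d ∈ C, ∃ C' ∈ 𝓓, d ∈ C' ∧
      C' ⊆ C ∪ C₀) (Q : Finset α → Prop) (hQ : ∀ S T : Finset α, S ⊆ T → Q S → Q T)
    {x : α} (hxZ : x ∉ Z) (hx : ∃ C ∈ 𝓓, x ∈ C) :
    (fam 𝓓 Z Q).card ≤ 2 * ((fam 𝓓 Z Q).filter (fun S => x ∈ S)).card := by
  classical
  set F := fam 𝓓 Z Q with hF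
  -- the largest generated set in `S \ {x}`
  let g : Finset α → Finset α := fun S =>
    ((Finset.univ : Finset (Finset α)).filter (fun T => Gen 𝓓 Z T ∧ T ⊆ S.erase x)).sup id
  have hsub : F.filter (fun S => x ∉ S) ⊆ (F.filter (fun S => x ∈ S)).image g := by
    intro S hS
    rw [Finset.mem_filter, hF, mem_fam] at hS
    obtain ⟨⟨hSG, hSQ⟩, hxS⟩ := hS
    obtain ⟨S', h1, h2, h3, h4⟩ := step M hZ hD hB hxZ hx hSG hxS
    rw [Finset.mem_image]
    refine ⟨S', ?_, ?_⟩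
    · rw [Finset.mem_filter, hF, mem_fam]
      exact ⟨⟨h1, hQ S S' h2 hSQ⟩, h3⟩
    · apply Finset.Subset.antisymm
      · apply Finset.sup_le
        intro T hT
        rw [Finset.mem_filter] at hT
        exact h4 T hT.2.1 hT.2.2
      · have : S ∈ (Finset.univ : Finset (Finset α)).filter
            (fun T => Gen 𝓓 Z T ∧ T ⊆ S'.erase x) := by
          rw [Finset.mem_filter]
          refine ⟨Finset.mem_univ _, hSG, ?_⟩
          intro s hs
          rw [Finset.mem_erase]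
          exact ⟨fun h => hxS (h ▸ hs), h2 hs⟩
        exact Finset.le_sup (f := id) this
  have h1 := (Finset.card_le_card hsub).trans Finset.card_image_le
  have h2 := Finset.card_filter_add_card_filter_not (s := F) (fun S => x ∈ S)
  omega

/-- `M` is binary: the symmetric difference of two circuits is a disjoint union of circuits. -/
def Binary (M : Matroid α) : Prop :=
  ∀ C₁ C₂ : Set α, M.IsCircuit C₁ → M.IsCircuit C₂ → ∃ P : Finset (Finset α),
    (∀ C ∈ P, M.IsCircuit (C : Set α)) ∧ (P : Set (Finset α)).PairwiseDisjoint id ∧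
      ((P.biUnion id : Finset α) : Set α) = symmDiff C₁ C₂

theorem odd_aux (M : Matroid α) (hM : Binary M) (sg : Set α) (n : ℕ) : ∀ C C₀ : Set α,
    M.IsCircuit C → M.IsCircuit C₀ → Odd (C₀ ∩ sg).ncard → (C ∩ C₀).Nonempty →
    (C ∪ C₀).ncard ≤ n → ∀ d ∈ C, ∃ C', (M.IsCircuit C' ∧ Odd (C' ∩ sg).ncard) ∧ d ∈ C' ∧
      C' ⊆ C ∪ C₀ := by
  classical
  induction n using Nat.strong_induction_on with
  | _ n ih =>
    intro C C₀ hC hC0 hodd hne hn d hd
    by_cases hCo : Odd (C ∩ sg).ncard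
    · exact ⟨C, ⟨hC, hCo⟩, hd, subset_union_left⟩
    by_cases hd0 : d ∈ C₀
    · exact ⟨C₀, ⟨hC0, hodd⟩, hd0, subset_union_right⟩
    obtain ⟨P, hP1, hP2, hP3⟩ := hM C C₀ hC hC0
    have hPs : ∀ B ∈ P, (B : Set α) ⊆ symmDiff C C₀ := by
      intro B hB z hz
      rw [← hP3]
      exact_mod_cast Finset.mem_biUnion.2 ⟨B, hB, by exact_mod_cast hz⟩
    -- parity
    have hpar : Odd ((symmDiff C C₀) ∩ sg).ncard := by
      have e1 : ((symmDiff C C₀) ∩ sg).ncard + 2 * ((C ∩ C₀) ∩ sg).ncard =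
          (C ∩ sg).ncard + (C₀ ∩ sg).ncard := by
        have u1 : C ∩ sg = ((C \ C₀) ∩ sg) ∪ ((C ∩ C₀) ∩ sg) := by
          ext z; simp only [mem_inter_iff, mem_union, mem_sdiff]; tauto
        have u2 : C₀ ∩ sg = ((C₀ \ C) ∩ sg) ∪ ((C ∩ C₀) ∩ sg) := by
          ext z; simp only [mem_inter_iff, mem_union, mem_sdiff]; tauto
        have u3 : (symmDiff C C₀) ∩ sg = ((C \ C₀) ∩ sg) ∪ ((C₀ \ C) ∩ sg) := by
          ext z; simp only [mem_inter_iff, mem_union, mem_sdiff, Set.mem_symmDiff]; tauto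
        rw [u1, u2, u3, ncard_union_eq, ncard_union_eq, ncard_union_eq]
        · ring
        all_goals
          try exact toFinite _
        all_goals
          rw [disjoint_left]
          rintro z ⟨h1, _⟩ ⟨h2, _⟩
          simp only [mem_inter_iff, mem_sdiff] at h1 h2
          tauto
      rw [Nat.not_odd_iff_even] at hCo
      obtain ⟨a, ha⟩ := hCo
      obtain ⟨b, hb⟩ := hodd
      rw [ha, hb] at e1
      by_contra hcon
      rw [Nat.not_odd_iff_even] at hcon
      obtain ⟨c, hc⟩ := hcon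
      omega
    -- some member of `P` is odd
    obtain ⟨B, hB, hBo⟩ : ∃ B ∈ P, Odd ((B : Set α) ∩ sg).ncard := by
      by_contra hcon
      push Not at hcon
      have e1 : ((symmDiff C C₀) ∩ sg).ncard = ∑ B ∈ P, ((B : Set α) ∩ sg).ncard := by
        have e2 : (symmDiff C C₀) ∩ sg = ((P.biUnion fun B => B.filter (· ∈ sg) : Finset α) : Set α) := by
          rw [← hP3]
          ext z
          simp
          tauto
        rw [e2, ncard_coe_finset, Finset.card_biUnion]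
        · apply Finset.sum_congr rfl
          intro B _
          rw [← ncard_coe_finset]
          congr 1
          ext z
          simp
        · intro B hB B' hB' hBB
          have := hP2 hB hB' hBB
          rw [Function.onFun, id, id] at this
          exact Finset.disjoint_of_subset_left (Finset.filter_subset _ _)
            (Finset.disjoint_of_subset_right (Finset.filter_subset _ _) this)
      have e3 : Even (∑ B ∈ P, ((B : Set α) ∩ sg).ncard) := by
        apply Finset.even_sum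
        intro B hB
        exact Nat.not_odd_iff_even.1 (hcon B hB)
      rw [← e1] at e3
      exact (Nat.not_even_iff_odd.2 hpar) e3
    by_cases hdB : d ∈ B
    · refine ⟨B, ⟨hP1 B hB, hBo⟩, by exact_mod_cast hdB, fun z hz => ?_⟩
      rcases hPs B hB hz with h | h
      · exact Or.inl h.1
      · exact Or.inr h.1
    have hBsub : (B : Set α) ⊆ C ∪ C₀ := fun z hz => by
      rcases hPs B hB hz with h | h
      · exact Or.inl h.1
      · exact Or.inr h.1
    have hBC : (C ∩ (B : Set α)).Nonempty := by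
      by_contra hcon
      have hsub : (B : Set α) ⊆ C₀ := by
        intro z hz
        rcases hBsub hz with h | h
        · exact absurd ⟨z, h, hz⟩ hcon
        · exact h
      have heq := (hP1 B hB).eq_of_subset_isCircuit hC0 hsub
      obtain ⟨w, hw1, hw2⟩ := hne
      exact hcon ⟨w, hw1, heq ▸ hw2⟩
    by_cases hsm : ∃ w ∈ C ∪ C₀, w ∉ C ∪ (B : Set α)
    · obtain ⟨w, hw, hwB⟩ := hsm
      have hs : C ∪ (B : Set α) ⊆ C ∪ C₀ := union_subset subset_union_left hBsub
      have hlt : (C ∪ (B : Set α)).ncard < n :=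
        lt_of_lt_of_le (ncard_lt_ncard ⟨hs, fun h => hwB (h hw)⟩ (toFinite _)) hn
      obtain ⟨C', h1, h2, h3⟩ := ih _ hlt C B hC (hP1 B hB) hBo hBC le_rfl d hd
      exact ⟨C', h1, h2, h3.trans hs⟩
    push Not at hsm
    -- the circuit of `P` through `d`
    have hdS : d ∈ symmDiff C C₀ := Or.inl ⟨hd, hd0⟩
    rw [← hP3] at hdS
    obtain ⟨B', hB', hdB'⟩ := Finset.mem_biUnion.1 (by exact_mod_cast hdS : d ∈ P.biUnion id)
    have hne' : B ≠ B' := fun h => hdB (by rw [h]; exact hdB')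
    have hdis : Disjoint B B' := hP2 hB hB' hne'
    have hsub : (B' : Set α) ⊆ C := by
      intro z hz
      rcases hPs B' hB' hz with h | h
      · exact h.1
      · exfalso
        rcases hsm z (Or.inr h.1) with h' | h'
        · exact h.2 h'
        · exact Finset.disjoint_left.1 hdis (by exact_mod_cast h') (by exact_mod_cast hz)
    have heq := (hP1 B' hB').eq_of_subset_isCircuit hC hsub
    obtain ⟨w, hw1, hw2⟩ := hne
    have hwB' : w ∈ (B' : Set α) := heq ▸ hw1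
    rcases hPs B' hB' hwB' with h | h
    · exact absurd hw2 h.2
    · exact absurd hw1 h.2

end Pool.Agent.Q295.UC
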